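import Pool.Agent.H64.Stk2

namespace Pool.Agent.Results.MP_2f4170_nt.IfPart

open Polynomial

/-- `s n = 1 + 2x + 3x^2 + ... + (n+1)x^n` in `ℤ[x]`. -/
noncomputable def s (n : ℕ) : ℤ[X] :=
  ∑ k ∈ Finset.range (n + 1), C ((k : ℤ) + 1) * X ^ k

/-- `s n` is reducible modulo every prime: no reduction is irreducible in `𝔽_p[x]`. -/
def ReducibleModEveryPrime (n : ℕ) : Prop :=
  ∀ p : ℕ, p.Prime → ¬ Irreducible ((s n).map (Int.castRingHom (ZMod p)))

theorem result (k : ℕ) (hk : 1 ≤ k) : ReducibleModEveryPrime (8 * k * (k + 1)) := by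
  intro p hp
  haveI : Fact p.Prime := ⟨hp⟩
  have e : (s (8 * k * (k + 1))).map (Int.castRingHom (ZMod p))
      = Pool.Agent.H64.Stk.sR (ZMod p) (8 * k * (k + 1)) :=
    Pool.Agent.H64.Stk.map_sR (Int.castRingHom (ZMod p)) _
  rw [e]
  exact Pool.Agent.H64.Stk.main k hk p

end Pool.Agent.Results.MP_2f4170_nt.IfPart
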